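import Mathlib

/-!
MP_496e47, Q1 (disproved).  The rectangle `S = (3,3)` has exactly one cyclic descent map, while the
descent numbers occurring on `SYT(S)` are `1, 2, 3`.
-/

namespace Pool.Agent.Results.MP_496e47_co.RectangleUnique

open Finset

/-- A skew shape `outer/inner` (rows and columns indexed from `0`). -/
structure SkewShape where
  outer : ℕ → ℕ
  inner : ℕ → ℕ
  rows : ℕ
  outer_anti : Antitone outer
  inner_anti : Antitone inner
  le : ∀ i, inner i ≤ outer i
  zero : ∀ i, rows ≤ i → outer i = 0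

/-- the cells of a skew shape -/
def SkewShape.cells (S : SkewShape) : Finset (ℕ × ℕ) :=
  ((range S.rows) ×ˢ (range (S.outer 0))).filter (fun c => S.inner c.1 ≤ c.2 ∧ c.2 < S.outer c.1)

/-- the number of cells -/
def SkewShape.size (S : SkewShape) : ℕ := S.cells.card

/-- Standard Young tableaux: bijective fillings of the cells by `1,...,n`, increasing along rows
and down columns. -/
structure SYT (S : SkewShape) where
  fill : {c // c ∈ S.cells} → ℕ
  bij : Set.BijOn fill Set.univ (Set.Icc 1 S.size)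
  row : ∀ c d : {c // c ∈ S.cells}, c.1.1 = d.1.1 → c.1.2 < d.1.2 → fill c < fill d
  col : ∀ c d : {c // c ∈ S.cells}, c.1.2 = d.1.2 → c.1.1 < d.1.1 → fill c < fill d

/-- `i` is a descent: `i+1` lies in a row strictly below the row of `i` -/
def SYT.IsDes {S : SkewShape} (T : SYT S) (i : ℕ) : Prop :=
  ∃ c d : {c // c ∈ S.cells}, T.fill c = i ∧ T.fill d = i + 1 ∧ c.1.1 < d.1.1

open Classical in
/-- the descent set, a subset of `[n-1]` -/
noncomputable def SYT.Des {S : SkewShape} (T : SYT S) : Finset ℕ :=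
  (Icc 1 (S.size - 1)).filter (fun i => T.IsDes i)

/-- cyclic descent maps -/
def IsCyclicDescentMap (S : SkewShape) (cDes : SYT S → Finset ℕ) : Prop :=
  (∀ T, cDes T ⊆ Icc 1 S.size) ∧
  ∃ φ : Equiv.Perm (SYT S), ∀ T,
    cDes T ∩ Icc 1 (S.size - 1) = T.Des ∧
    cDes (φ T) = (cDes T).image (fun i => i % S.size + 1) ∧
    (cDes T).Nonempty ∧ cDes T ≠ Icc 1 S.size

/-- the set of descent numbers -/
def DesNumbers (S : SkewShape) : Set ℕ := {k | ∃ T : SYT S, T.Des.card = k}

/-- the shape `(3,3)` -/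
def rect : SkewShape where
  outer := fun i => if i < 2 then 3 else 0
  inner := fun _ => 0
  rows := 2
  outer_anti := by
    intro a b h
    show (if b < 2 then 3 else 0) ≤ (if a < 2 then 3 else 0)
    split_ifs <;> omega
  inner_anti := fun _ _ _ => le_rfl
  le := fun _ => Nat.zero_le _
  zero := by intro i hi; show (if i < 2 then 3 else 0) = 0; rw [if_neg (by omega)]

lemma cells_rect : rect.cells = {(0, 0), (0, 1), (0, 2), (1, 0), (1, 1), (1, 2)} := by
  decide

lemma size_rect : rect.size = 6 := by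
  unfold SkewShape.size; rw [cells_rect]; decide

def x00 : {c // c ∈ rect.cells} := ⟨(0, 0), by rw [cells_rect]; decide⟩
def x01 : {c // c ∈ rect.cells} := ⟨(0, 1), by rw [cells_rect]; decide⟩
def x02 : {c // c ∈ rect.cells} := ⟨(0, 2), by rw [cells_rect]; decide⟩
def x10 : {c // c ∈ rect.cells} := ⟨(1, 0), by rw [cells_rect]; decide⟩
def x11 : {c // c ∈ rect.cells} := ⟨(1, 1), by rw [cells_rect]; decide⟩
def x12 : {c // c ∈ rect.cells} := ⟨(1, 2), by rw [cells_rect]; decide⟩

lemma all_cells (c : {c // c ∈ rect.cells}) :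
    c = x00 ∨ c = x01 ∨ c = x02 ∨ c = x10 ∨ c = x11 ∨ c = x12 := by
  obtain ⟨c, hc⟩ := c
  have h := hc
  rw [cells_rect] at h
  simp only [mem_insert, mem_singleton] at h
  rcases h with h | h | h | h | h | h <;> subst h
  · left; rfl
  · right; left; rfl
  · right; right; left; rfl
  · right; right; right; left; rfl
  · right; right; right; right; left; rfl
  · right; right; right; right; right; rfl

/-- the vector of entries -/
def vec (T : SYT rect) : Fin 6 → ℕ :=
  ![T.fill x00, T.fill x01, T.fill x02, T.fill x10, T.fill x11, T.fill x12]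

lemma vec_inj {T T' : SYT rect} (h : vec T = vec T') : T = T' := by
  obtain ⟨f, h1, h2, h3⟩ := T
  obtain ⟨g, g1, g2, g3⟩ := T'
  have : f = g := by
    funext c
    have e0 := congrFun h 0
    have e1 := congrFun h 1
    have e2 := congrFun h 2
    have e3 := congrFun h 3
    have e4 := congrFun h 4
    have e5 := congrFun h 5
    simp [vec] at e0 e1 e2 e3 e4 e5
    rcases all_cells c with h | h | h | h | h | h <;> subst h <;> assumption
  subst this
  rfl

lemma constraints (T : SYT rect) :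
    T.fill x00 < T.fill x01 ∧ T.fill x01 < T.fill x02 ∧ T.fill x10 < T.fill x11 ∧
    T.fill x11 < T.fill x12 ∧ T.fill x00 < T.fill x10 ∧ T.fill x01 < T.fill x11 ∧
    T.fill x02 < T.fill x12 ∧ T.fill x01 ≠ T.fill x10 ∧ T.fill x02 ≠ T.fill x10 ∧
    T.fill x02 ≠ T.fill x11 ∧ 1 ≤ T.fill x00 ∧ T.fill x12 ≤ 6 := by
  have hinj := T.bij.injOn
  have hne : ∀ c d : {c // c ∈ rect.cells}, c ≠ d → T.fill c ≠ T.fill d :=
    fun c d hcd h => hcd (hinj (Set.mem_univ _) (Set.mem_univ _) h)
  refine ⟨T.row _ _ rfl (by decide), T.row _ _ rfl (by decide), T.row _ _ rfl (by decide),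
    T.row _ _ rfl (by decide), T.col _ _ rfl (by decide), T.col _ _ rfl (by decide),
    T.col _ _ rfl (by decide), hne _ _ (by decide), hne _ _ (by decide), hne _ _ (by decide),
    ?_, ?_⟩
  · exact (T.bij.mapsTo (Set.mem_univ x00)).1
  · have := (T.bij.mapsTo (Set.mem_univ x12)).2
    rw [size_rect] at this; exact this

/-- building a filling from a vector -/
def fillOf (v : Fin 6 → ℕ) (c : {c // c ∈ rect.cells}) : ℕ :=
  if c.1.1 = 0 then (if c.1.2 = 0 then v 0 else if c.1.2 = 1 then v 1 else v 2)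
  else (if c.1.2 = 0 then v 3 else if c.1.2 = 1 then v 4 else v 5)

/-- the vectors of the five tableaux -/
def vs : Fin 5 → Fin 6 → ℕ :=
  ![![1, 2, 3, 4, 5, 6], ![1, 2, 4, 3, 5, 6], ![1, 2, 5, 3, 4, 6], ![1, 3, 4, 2, 5, 6],
    ![1, 3, 5, 2, 4, 6]]

lemma fillOf_values (v : Fin 6 → ℕ) : fillOf v x00 = v 0 ∧ fillOf v x01 = v 1 ∧
    fillOf v x02 = v 2 ∧ fillOf v x10 = v 3 ∧ fillOf v x11 = v 4 ∧ fillOf v x12 = v 5 := by
  refine ⟨rfl, rfl, rfl, rfl, rfl, rfl⟩

/-- the five tableaux -/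
def tab (i : Fin 5) : SYT rect where
  fill := fillOf (vs i)
  bij := by
    obtain ⟨f0, f1, f2, f3, f4, f5⟩ := fillOf_values (vs i)
    refine ⟨?_, ?_, ?_⟩
    · intro c _
      rw [size_rect]
      show 1 ≤ _ ∧ _ ≤ 6
      rcases all_cells c with h | h | h | h | h | h <;> subst h <;>
        simp only [f0, f1, f2, f3, f4, f5] <;> revert i <;> decide
    · intro c _ d _ h
      rcases all_cells c with hc | hc | hc | hc | hc | hc <;>
      rcases all_cells d with hd | hd | hd | hd | hd | hd <;> subst hc <;> subst hd <;>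
        first
        | rfl
        | (exfalso; revert h; simp only [f0, f1, f2, f3, f4, f5]; revert i; decide)
    · intro k hk
      rw [size_rect] at hk
      have hk1 : 1 ≤ k := hk.1
      have hk2 : k ≤ 6 := hk.2
      have key : ∀ i : Fin 5, ∀ k ∈ Finset.Icc 1 6, vs i 0 = k ∨ vs i 1 = k ∨ vs i 2 = k ∨
          vs i 3 = k ∨ vs i 4 = k ∨ vs i 5 = k := by decide
      rcases key i k (Finset.mem_Icc.mpr ⟨hk1, hk2⟩) with h | h | h | h | h | h
      · exact ⟨x00, Set.mem_univ _, by rw [f0]; exact h⟩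
      · exact ⟨x01, Set.mem_univ _, by rw [f1]; exact h⟩
      · exact ⟨x02, Set.mem_univ _, by rw [f2]; exact h⟩
      · exact ⟨x10, Set.mem_univ _, by rw [f3]; exact h⟩
      · exact ⟨x11, Set.mem_univ _, by rw [f4]; exact h⟩
      · exact ⟨x12, Set.mem_univ _, by rw [f5]; exact h⟩
  row := by
    obtain ⟨f0, f1, f2, f3, f4, f5⟩ := fillOf_values (vs i)
    intro c d h1 h2
    rcases all_cells c with hc | hc | hc | hc | hc | hc <;>
    rcases all_cells d with hd | hd | hd | hd | hd | hd <;> subst hc <;> subst hd <;>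
      first
      | (exfalso; revert h1; decide)
      | (exfalso; revert h2; decide)
      | (simp only [f0, f1, f2, f3, f4, f5]; clear h1 h2; revert i; decide)
  col := by
    obtain ⟨f0, f1, f2, f3, f4, f5⟩ := fillOf_values (vs i)
    intro c d h1 h2
    rcases all_cells c with hc | hc | hc | hc | hc | hc <;>
    rcases all_cells d with hd | hd | hd | hd | hd | hd <;> subst hc <;> subst hd <;>
      first
      | (exfalso; revert h1; decide)
      | (exfalso; revert h2; decide)
      | (simp only [f0, f1, f2, f3, f4, f5]; clear h1 h2; revert i; decide)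

lemma vec_tab (i : Fin 5) : vec (tab i) = vs i := by
  obtain ⟨f0, f1, f2, f3, f4, f5⟩ := fillOf_values (vs i)
  funext j
  fin_cases j
  · exact f0
  · exact f1
  · exact f2
  · exact f3
  · exact f4
  · exact f5

lemma exists_tab (T : SYT rect) : ∃ i, T = tab i := by
  obtain ⟨h1, h2, h3, h4, h5, h6, h7, h8, h9, h10, h11, h12⟩ := constraints T
  have key : ∀ i, (T.fill x00 = vs i 0 ∧ T.fill x01 = vs i 1 ∧ T.fill x02 = vs i 2 ∧
      T.fill x10 = vs i 3 ∧ T.fill x11 = vs i 4 ∧ T.fill x12 = vs i 5) → T = tab i := by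
    intro i h
    apply vec_inj
    rw [vec_tab]
    obtain ⟨e0, e1, e2, e3, e4, e5⟩ := h
    funext j
    fin_cases j <;> simpa [vec]
  generalize ha : T.fill x00 = a at *
  generalize hb : T.fill x01 = b at *
  generalize hc : T.fill x02 = c at *
  generalize hd : T.fill x10 = d at *
  generalize he : T.fill x11 = e at *
  generalize hf : T.fill x12 = f at *
  have hcases : (a = 1 ∧ b = 2 ∧ c = 3 ∧ d = 4 ∧ e = 5 ∧ f = 6) ∨
      (a = 1 ∧ b = 2 ∧ c = 4 ∧ d = 3 ∧ e = 5 ∧ f = 6) ∨
      (a = 1 ∧ b = 2 ∧ c = 5 ∧ d = 3 ∧ e = 4 ∧ f = 6) ∨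
      (a = 1 ∧ b = 3 ∧ c = 4 ∧ d = 2 ∧ e = 5 ∧ f = 6) ∨
      (a = 1 ∧ b = 3 ∧ c = 5 ∧ d = 2 ∧ e = 4 ∧ f = 6) := by
    rcases lt_or_gt_of_ne h8 with g1 | g1
    · rcases lt_or_gt_of_ne h9 with g2 | g2
      · left; refine ⟨?_, ?_, ?_, ?_, ?_, ?_⟩ <;> omega
      · rcases lt_or_gt_of_ne h10 with g3 | g3
        · right; left; refine ⟨?_, ?_, ?_, ?_, ?_, ?_⟩ <;> omega
        · right; right; left; refine ⟨?_, ?_, ?_, ?_, ?_, ?_⟩ <;> omega
    · rcases lt_or_gt_of_ne h10 with g3 | g3
      · right; right; right; left; refine ⟨?_, ?_, ?_, ?_, ?_, ?_⟩ <;> omega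
      · right; right; right; right; refine ⟨?_, ?_, ?_, ?_, ?_, ?_⟩ <;> omega
  rcases hcases with h | h | h | h | h
  · exact ⟨0, key 0 h⟩
  · exact ⟨1, key 1 h⟩
  · exact ⟨2, key 2 h⟩
  · exact ⟨3, key 3 h⟩
  · exact ⟨4, key 4 h⟩

lemma tab_injective : Function.Injective tab := by
  intro i j h
  have := congrArg vec h
  rw [vec_tab, vec_tab] at this
  clear h
  revert this
  revert i j
  decide

/-- the equivalence between tableaux and `Fin 5` -/
noncomputable def eqv : Fin 5 ≃ SYT rect :=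
  Equiv.ofBijective tab ⟨tab_injective, fun T => by
    obtain ⟨i, hi⟩ := exists_tab T; exact ⟨i, hi.symm⟩⟩

lemma eqv_apply (i : Fin 5) : eqv i = tab i := rfl

lemma isDes_iff (T : SYT rect) (k : ℕ) : T.IsDes k ↔
    ∃ a ∈ ({0, 1, 2} : Finset (Fin 6)), ∃ b ∈ ({3, 4, 5} : Finset (Fin 6)),
      vec T a = k ∧ vec T b = k + 1 := by
  constructor
  · rintro ⟨c, d, h1, h2, h3⟩
    rcases all_cells c with hc | hc | hc | hc | hc | hc <;>
    rcases all_cells d with hd | hd | hd | hd | hd | hd <;> subst hc <;> subst hd <;>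
      first
      | (exfalso; revert h3; decide)
      | exact ⟨0, by decide, 3, by decide, h1, h2⟩
      | exact ⟨0, by decide, 4, by decide, h1, h2⟩
      | exact ⟨0, by decide, 5, by decide, h1, h2⟩
      | exact ⟨1, by decide, 3, by decide, h1, h2⟩
      | exact ⟨1, by decide, 4, by decide, h1, h2⟩
      | exact ⟨1, by decide, 5, by decide, h1, h2⟩
      | exact ⟨2, by decide, 3, by decide, h1, h2⟩
      | exact ⟨2, by decide, 4, by decide, h1, h2⟩
      | exact ⟨2, by decide, 5, by decide, h1, h2⟩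
  · rintro ⟨a, ha, b, hb, h1, h2⟩
    simp only [mem_insert, mem_singleton] at ha hb
    rcases ha with rfl | rfl | rfl <;> rcases hb with rfl | rfl | rfl
    · exact ⟨x00, x10, h1, h2, by decide⟩
    · exact ⟨x00, x11, h1, h2, by decide⟩
    · exact ⟨x00, x12, h1, h2, by decide⟩
    · exact ⟨x01, x10, h1, h2, by decide⟩
    · exact ⟨x01, x11, h1, h2, by decide⟩
    · exact ⟨x01, x12, h1, h2, by decide⟩
    · exact ⟨x02, x10, h1, h2, by decide⟩
    · exact ⟨x02, x11, h1, h2, by decide⟩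
    · exact ⟨x02, x12, h1, h2, by decide⟩

/-- descent sets of the five tableaux -/
def ds : Fin 5 → Finset ℕ := ![{3}, {2, 4}, {2, 5}, {1, 4}, {1, 3, 5}]

/-- cyclic descent sets of the five tableaux -/
def cs : Fin 5 → Finset ℕ := ![{3, 6}, {2, 4, 6}, {2, 5}, {1, 4}, {1, 3, 5}]

lemma des_tab (i : Fin 5) : (tab i).Des = ds i := by
  classical
  ext k
  simp only [SYT.Des, mem_filter, isDes_iff, vec_tab, size_rect]
  constructor
  · rintro ⟨hk, h⟩
    revert h
    have : ∀ i : Fin 5, ∀ k ∈ Icc 1 5, (∃ a ∈ ({0, 1, 2} : Finset (Fin 6)),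
        ∃ b ∈ ({3, 4, 5} : Finset (Fin 6)), vs i a = k ∧ vs i b = k + 1) → k ∈ ds i := by decide
    exact this i k hk
  · intro hk
    have : ∀ i : Fin 5, ∀ k ∈ ds i, k ∈ Icc 1 5 ∧ (∃ a ∈ ({0, 1, 2} : Finset (Fin 6)),
        ∃ b ∈ ({3, 4, 5} : Finset (Fin 6)), vs i a = k ∧ vs i b = k + 1) := by decide
    exact this i k hk

/-- the cyclic descent map of the rectangle -/
noncomputable def cmap (T : SYT rect) : Finset ℕ := cs (eqv.symm T)

/-- the rotation on indices -/
def rot : Equiv.Perm (Fin 5) where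
  toFun := ![3, 4, 0, 2, 1]
  invFun := ![2, 4, 3, 0, 1]
  left_inv := by decide
  right_inv := by decide

lemma cmap_isCyclic : IsCyclicDescentMap rect cmap := by
  refine ⟨?_, (eqv.symm.trans rot).trans eqv, ?_⟩
  · intro T
    obtain ⟨i, rfl⟩ := eqv.surjective T
    unfold cmap
    rw [Equiv.symm_apply_apply, size_rect]
    revert i; decide
  · intro T
    obtain ⟨i, rfl⟩ := eqv.surjective T
    unfold cmap
    simp only [Equiv.trans_apply, Equiv.symm_apply_apply, size_rect]
    rw [eqv_apply, des_tab]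
    revert i; decide

lemma exists_index_of_cyclic {c : SYT rect → Finset ℕ} (hc : IsCyclicDescentMap rect c)
    (T : SYT rect) : ∃ j, (c T).image (fun i => i % 6 + 1) ∩ Icc 1 5 = ds j := by
  obtain ⟨h1, φ, h2⟩ := hc
  obtain ⟨ha, hb, hd, he⟩ := h2 T
  obtain ⟨j, hj⟩ := exists_tab (φ T)
  refine ⟨j, ?_⟩
  have := (h2 (φ T)).1
  rw [hb, size_rect, hj, des_tab] at this
  exact this

lemma two_options {A B : Finset ℕ} (hA : A ⊆ Icc 1 6) (h : A ∩ Icc 1 5 = B) (hB : B ⊆ Icc 1 5) :
    A = B ∨ A = insert 6 B := by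
  by_cases h6 : 6 ∈ A
  · right
    ext k
    rw [mem_insert, ← h, mem_inter, mem_Icc]
    constructor
    · intro hk
      have := mem_Icc.mp (hA hk)
      by_cases hk6 : k = 6
      · left; exact hk6
      · right; exact ⟨hk, by omega, by omega⟩
    · rintro (rfl | hk)
      · exact h6
      · exact hk.1
  · left
    ext k
    rw [← h, mem_inter, mem_Icc]
    constructor
    · intro hk
      have := mem_Icc.mp (hA hk)
      have : k ≠ 6 := fun e => h6 (e ▸ hk)
      exact ⟨hk, by omega, by omega⟩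
    · intro hk; exact hk.1

lemma unique_map {c : SYT rect → Finset ℕ} (hc : IsCyclicDescentMap rect c) : c = cmap := by
  funext T
  obtain ⟨h1, φ, h2⟩ := id hc
  have hT1 := h1 T
  have hT2 := (h2 T).1
  have hex := exists_index_of_cyclic hc T
  -- a second application of the rotation, needed for the first tableau
  have hex2 := exists_index_of_cyclic hc (φ T)
  rw [(h2 T).2.1, size_rect] at hex2
  have hex3 := exists_index_of_cyclic hc (φ (φ T))
  rw [(h2 (φ T)).2.1, (h2 T).2.1, size_rect] at hex3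
  obtain ⟨i, rfl⟩ := eqv.surjective T
  rw [size_rect] at hT1
  rw [eqv_apply, des_tab, size_rect] at hT2
  unfold cmap
  rw [Equiv.symm_apply_apply]
  rw [eqv_apply] at *
  have hB : ds i ⊆ Icc 1 5 := (by decide : ∀ i : Fin 5, ds i ⊆ Icc 1 5) i
  have key : ∀ i : Fin 5, ∀ A ∈ ({ds i, insert 6 (ds i)} : Finset (Finset ℕ)),
      (∃ j, A.image (fun i => i % 6 + 1) ∩ Icc 1 5 = ds j) →
      (∃ j, (A.image (fun i => i % 6 + 1)).image (fun i => i % 6 + 1) ∩ Icc 1 5 = ds j) →
      (∃ j, ((A.image (fun i => i % 6 + 1)).image (fun i => i % 6 + 1)).image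
        (fun i => i % 6 + 1) ∩ Icc 1 5 = ds j) → A = cs i := by decide
  apply key i _ _ hex hex2 hex3
  rcases two_options hT1 hT2 hB with h | h <;> rw [h] <;> simp

theorem result : ∃ S : SkewShape, (∃! c : SYT S → Finset ℕ, IsCyclicDescentMap S c) ∧
    DesNumbers S = {1, 2, 3} ∧ ¬ ∃ k : ℕ, DesNumbers S = {k, k + 1} := by
  have hD : DesNumbers rect = {1, 2, 3} := by
    ext k
    constructor
    · rintro ⟨T, hT⟩
      obtain ⟨i, rfl⟩ := exists_tab T
      rw [des_tab] at hT
      rw [← hT]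
      have : ∀ i : Fin 5, (ds i).card = 1 ∨ (ds i).card = 2 ∨ (ds i).card = 3 := by decide
      exact this i
    · rintro (h | h | h)
      · exact ⟨tab 0, by rw [des_tab, h]; decide⟩
      · exact ⟨tab 1, by rw [des_tab, h]; decide⟩
      · exact ⟨tab 4, by rw [des_tab, h]; decide⟩
  refine ⟨rect, ⟨cmap, cmap_isCyclic, fun c hc => unique_map hc⟩, hD, ?_⟩
  rintro ⟨k, hk⟩
  rw [hD] at hk
  have h1 : (1 : ℕ) ∈ ({k, k + 1} : Set ℕ) := by rw [← hk]; simp
  have h3 : (3 : ℕ) ∈ ({k, k + 1} : Set ℕ) := by rw [← hk]; simp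
  simp only [Set.mem_insert_iff, Set.mem_singleton_iff] at h1 h3
  omega

end Pool.Agent.Results.MP_496e47_co.RectangleUnique
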